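import Pool.Agent.Lib.MP_688fd0_co.LIN.N43.Defs
import Pool.Agent.Lib.MP_688fd0_co.LIN.H89.Base

/-!
LOAD (helper43).
-/

set_option autoImplicit false

namespace Pool.Agent.Lib.MP_688fd0_co.LIN.N43

open Classical
open Pool.Agent.Lib.MP_688fd0_co.LP (IsP Conn Cyc Symm cay)
open Pool.Agent.Lib.MP_688fd0_co.LPV (card_fib mul_app kpos)
open Pool.Agent.Lib.MP_688fd0_co.LIN.H89 (mem_bl card_bl dist_map)

universe u

section
variable {V : Type u} [Fintype V] {G : SimpleGraph V}

/-- all the sets `{g : g v = x}` have the same number of elements -/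
lemma card_to (htr : ∀ x y : V, ∃ φ : G ≃g G, φ x = y) (o v x : V) :
    ((Finset.univ : Finset (G ≃g G)).filter (fun g => g v = x)).card =
      ((Finset.univ : Finset (G ≃g G)).filter (fun g => g o = o)).card := by
  obtain ⟨a, rfl⟩ := htr o v
  rw [← card_fib htr o x]
  apply Finset.card_bij (fun g _ => g * a)
  · intro g hg
    simp only [Finset.mem_filter, Finset.mem_univ, true_and] at *
    rw [mul_app, hg]
  · intro g _ g' _ h
    simpa using h
  · intro g hg
    simp only [Finset.mem_filter, Finset.mem_univ, true_and] at hg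
    refine ⟨g * a⁻¹, ?_, by group⟩
    simp only [Finset.mem_filter, Finset.mem_univ, true_and]
    rw [← mul_app, inv_mul_cancel_right, hg]

lemma sum_aut (htr : ∀ x y : V, ∃ φ : G ≃g G, φ x = y) (o v : V) (y : V → ℕ) :
    ∑ g : G ≃g G, y (g v) =
      ((Finset.univ : Finset (G ≃g G)).filter (fun g => g o = o)).card * ∑ x, y x := by
  rw [← Finset.sum_fiberwise (s := Finset.univ) (g := fun g : G ≃g G => g v), Finset.mul_sum]
  apply Finset.sum_congr rfl
  intro x _
  rw [← card_to htr o v x, ← smul_eq_mul, ← Finset.sum_const]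
  apply Finset.sum_congr rfl
  intro g hg
  rw [(Finset.mem_filter.1 hg).2]

lemma exists_list (hG : VT G) (o u : V) : ∃ P : List V, IsP G P ∧ P.head? = some o ∧
    P.getLast? = some u ∧ P.length = G.dist o u + 1 := by
  obtain ⟨p, hp, hl⟩ := (hG.conn o u).exists_path_of_dist
  refine ⟨p.support, ⟨by simp, p.isChain_adj_support, hp.support_nodup⟩, ?_, ?_, ?_⟩
  · cases p <;> simp
  · rw [List.getLast?_eq_getLast_of_ne_nil (by simp), SimpleGraph.Walk.getLast_support]
  · rw [SimpleGraph.Walk.length_support, hl]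

lemma isP_map (φ : G ≃g G) {P : List V} (hP : IsP G P) : IsP G (P.map φ) := by
  obtain ⟨h1, h2, h3⟩ := hP
  refine ⟨by simpa using h1, ?_, h3.map φ.injective⟩
  rw [List.isChain_map]
  exact h2.imp (fun a b h => φ.map_adj_iff.2 h)

end

theorem load : LoadStatement.{u} := by
  intro V _ G hG y C R s θ hR hθ
  obtain ⟨o⟩ := hG.conn.nonempty
  choose π hπ1 hπ2 hπ3 hπ4 using fun u => exists_list hG o u
  set k := ((Finset.univ : Finset (G ≃g G)).filter (fun g => g o = o)).card with hk
  have hk0 : 0 < k := kpos o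
  have hb : 0 < bn G s := by
    have : o ∈ bl G o s := by rw [mem_bl]; simp
    rw [← card_bl hG o s]
    exact Finset.card_pos.2 ⟨o, this⟩
  -- total weight
  have hup : ∑ g : G ≃g G, ∑ u ∈ bl G o s, ((π u).map (fun v => y (g v))).sum ≤
      bn G s * ((s + 1) * (k * ∑ x, y x)) := by
    rw [Finset.sum_comm]
    calc ∑ u ∈ bl G o s, ∑ g : G ≃g G, ((π u).map (fun v => y (g v))).sum
        ≤ ∑ u ∈ bl G o s, (s + 1) * (k * ∑ x, y x) := by
          apply Finset.sum_le_sum
          intro u hu
          have h1 : ∀ P : List V, ∑ g : G ≃g G, (P.map (fun v => y (g v))).sum = P.length * (k * ∑ x, y x) := by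
            intro P
            induction P with
            | nil => simp
            | cons a P ih =>
              simp only [List.map_cons, List.sum_cons, List.length_cons]
              rw [Finset.sum_add_distrib, ih, sum_aut hG.tr o a y]
              ring
          rw [h1]
          apply Nat.mul_le_mul_right
          rw [hπ4]
          exact Nat.succ_le_succ (mem_bl.1 hu)
      _ = _ := by rw [Finset.sum_const, smul_eq_mul, card_bl hG]
  have hlow : ∀ g : G ≃g G, g o ∈ C → bn G s * θ ≤ 2 * ∑ u ∈ bl G o s, ((π u).map (fun v => y (g v))).sum := by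
    intro g hg
    have h1 : ∀ u ∈ (bl G o s).filter (fun u => g u ∉ R (g o)), θ ≤ ((π u).map (fun v => y (g v))).sum := by
      intro u hu
      have h2 := hθ (g o) hg ((π u).map g) (isP_map g (hπ1 u)) (by rw [List.head?_map, hπ2]; rfl)
        ⟨g u, by rw [List.getLast?_map, hπ3]; rfl, (Finset.mem_filter.1 hu).2⟩
      rw [List.map_map] at h2
      exact h2
    have h3 : ((bl G o s).filter (fun u => g u ∈ R (g o))).card ≤ (R (g o)).card := by
      apply Finset.card_le_card_of_injOn g
      · intro u hu
        exact (Finset.mem_filter.1 hu).2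
      · exact g.injective.injOn
    have h4 := Finset.card_filter_add_card_filter_not (s := bl G o s) (fun u => g u ∈ R (g o))
    rw [card_bl hG] at h4
    have h5 := hR (g o) hg
    have h6 : ((bl G o s).filter (fun u => g u ∉ R (g o))).card * θ ≤
        ∑ u ∈ bl G o s, ((π u).map (fun v => y (g v))).sum := by
      rw [← smul_eq_mul, ← Finset.sum_const]
      exact (Finset.sum_le_sum h1).trans (Finset.sum_le_sum_of_subset (Finset.filter_subset _ _))
    calc bn G s * θ ≤ (2 * ((bl G o s).filter (fun u => g u ∉ R (g o))).card) * θ :=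
          Nat.mul_le_mul_right _ (by omega)
      _ = 2 * (((bl G o s).filter (fun u => g u ∉ R (g o))).card * θ) := by ring
      _ ≤ _ := Nat.mul_le_mul_left _ h6
  have hcount : ((Finset.univ : Finset (G ≃g G)).filter (fun g => g o ∈ C)).card = k * C.card := by
    exact Pool.Agent.Lib.MP_688fd0_co.LPV.card_lft hG.tr o C
  have hsum : (k * C.card) * (bn G s * θ) ≤ 2 * (bn G s * ((s + 1) * (k * ∑ x, y x))) := by
    rw [← hcount, ← smul_eq_mul, ← Finset.sum_const]
    calc _ ≤ ∑ g ∈ (Finset.univ : Finset (G ≃g G)).filter (fun g => g o ∈ C),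
          2 * ∑ u ∈ bl G o s, ((π u).map (fun v => y (g v))).sum := by
          apply Finset.sum_le_sum
          intro g hg
          exact hlow g (Finset.mem_filter.1 hg).2
      _ ≤ ∑ g : G ≃g G, 2 * ∑ u ∈ bl G o s, ((π u).map (fun v => y (g v))).sum :=
          Finset.sum_le_sum_of_subset (Finset.filter_subset _ _)
      _ = 2 * ∑ g : G ≃g G, ∑ u ∈ bl G o s, ((π u).map (fun v => y (g v))).sum := by rw [Finset.mul_sum]
      _ ≤ _ := Nat.mul_le_mul_left _ hup
  have h7 : (k * bn G s) * (θ * C.card) ≤ (k * bn G s) * (2 * (s + 1) * ∑ v, y v) := by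
    calc (k * bn G s) * (θ * C.card) = (k * C.card) * (bn G s * θ) := by ring
      _ ≤ _ := hsum
      _ = _ := by ring
  exact Nat.le_of_mul_le_mul_left h7 (Nat.mul_pos hk0 hb)

end Pool.Agent.Lib.MP_688fd0_co.LIN.N43
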