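import Pool.Agent.Lib.MP_688fd0_co.LIN.N43.Defs
import Pool.Agent.Lib.MP_688fd0_co.LIN.H85.Connect

/-!
CONN3 (helper43): many disjoint connections in vertex-transitive graphs, without loss in the degree.
-/

set_option autoImplicit false

namespace Pool.Agent.Lib.MP_688fd0_co.LIN.N43

open Classical
open Pool.Agent.Lib.MP_688fd0_co.LP (IsP Conn Cyc Symm cay)

universe u

/-- following a path: either a clean walk to another class, or a clean walk to the last vertex -/
theorem follow {V ι : Type*} {G : SimpleGraph V} {C : ι → Set V} {W : V → ℕ} {i : ι} {u : V} :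
    ∀ (P : List V) (v : V) (t : ℕ), Wk G C W i t v → (v :: P).IsChain G.Adj → (v :: P).getLast? = some u →
      (∃ k, k ≠ i ∧ ∃ w ∈ C k, ∃ t', Wk G C W i t' w ∧ t' + W w ≤ t + ((v :: P).map W).sum) ∨
      ∃ t', Wk G C W i t' u ∧ t' + W u ≤ t + ((v :: P).map W).sum := by
  intro P
  induction P with
  | nil =>
    intro v t hv _ hu
    right
    simp only [List.getLast?_singleton, Option.some.injEq] at hu
    subst hu
    exact ⟨t, hv, by simp⟩
  | cons w P ih =>
    intro v t hv hch hu
    by_cases hk : ∃ k, k ≠ i ∧ v ∈ C k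
    · obtain ⟨k, hk, hvk⟩ := hk
      left
      exact ⟨k, hk, v, hvk, t, hv, by simp only [List.map_cons, List.sum_cons]; omega⟩
    · push Not at hk
      obtain ⟨hvw, hch'⟩ := List.isChain_cons_cons.1 hch
      have hu' : (w :: P).getLast? = some u := by
        rw [List.getLast?_cons_of_ne_nil (by simp)] at hu
        exact hu
      have hsum : ((v :: w :: P).map W).sum = W v + ((w :: P).map W).sum := by simp
      rw [hsum]
      by_cases hw : w ∈ C i
      · rcases ih w 0 (Wk.base hw) hch' hu' with ⟨k, h1, z, h2, t', h3, h4⟩ | ⟨t', h3, h4⟩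
        · left
          exact ⟨k, h1, z, h2, t', h3, by omega⟩
        · right
          exact ⟨t', h3, by omega⟩
      · rcases ih w (t + W v) (Wk.step hv hk hvw hw) hch' hu' with ⟨k, h1, z, h2, t', h3, h4⟩ | ⟨t', h3, h4⟩
        · left
          exact ⟨k, h1, z, h2, t', h3, by omega⟩
        · right
          exact ⟨t', h3, by omega⟩

/-- Menger with capacities, in terms of `IsConn` -/
theorem cut_or {V ι : Type*} [Fintype V] [Fintype ι] (G : SimpleGraph V) (cls : V → Option ι) (M : Finset ι)
    (q m : ℕ) :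
    (∃ (Q : Fin m → List V) (src tgt : Fin m → ι),
      (∀ t, src t ∈ M ∧ tgt t ∉ M ∧ IsConn G cls (src t) (Q t) ∧
        ∃ b, (Q t).getLast? = some b ∧ cls b = some (tgt t)) ∧
      (∀ s t, s ≠ t → List.Disjoint (Q s) (Q t)) ∧
      ∀ i, (Finset.univ.filter (fun t => src t = i)).card ≤ q) ∨
    ∃ (X : Finset V) (Y : Finset ι), X.card + q * Y.card < m ∧
      ∀ i ∈ M, i ∉ Y → ∀ j, j ∉ M → ∀ w, cls w = some j → w ∉ X →
        ¬ Wk G (fun i => {v | cls v = some i}) (fun v => if v ∈ X then 1 else 0) i 0 w := by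
  have hC : ∀ i j : ι, i ≠ j → Disjoint ({v | cls v = some i} : Set V) {v | cls v = some j} := by
    intro i j hij
    rw [Set.disjoint_left]
    intro v hv hv'
    simp only [Set.mem_ofPred_eq] at hv hv'
    rw [hv] at hv'
    exact hij (Option.some.inj hv')
  rcases capCut G (fun i => {v | cls v = some i}) hC M q m with ⟨Q, src, tgt, h1, h2, h3⟩ | ⟨X, Y, h1, h2⟩
  · left
    refine ⟨Q, src, tgt, ?_, h2, h3⟩
    intro t
    obtain ⟨hM, hT, hCn⟩ := h1 t
    obtain ⟨a, ha, ha'⟩ := hCn.hd
    obtain ⟨b, hb, hb'⟩ := hCn.lt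
    have hne : tgt t ≠ src t := fun h => hT (h ▸ hM)
    refine ⟨hM, hT, ⟨hCn.isP, ⟨a, ha', ha⟩, ⟨b, tgt t, hb', hb, hne⟩, ?_⟩, b, hb', hb⟩
    intro v hv
    have := hCn.inner v hv
    simp only [Set.mem_ofPred_eq] at this
    rcases h : cls v with _ | k
    · rfl
    · exact absurd h (this k)
  · right
    exact ⟨X, Y, h1, fun i hi hiY j hj w hw hwX => h2 i hi hiY j hj w hw hwX⟩

/-- one quarter of all subsets of `I` contain `i` but not `k` -/
theorem quarter {ι : Type*} (I : Finset ι) (i k : ι) (hi : i ∈ I) (hk : k ≠ i) :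
    I.powerset.card ≤ 4 * (I.powerset.filter (fun M => i ∈ M ∧ k ∉ M)).card := by
  have h2 : (I.powerset.filter (fun M => i ∈ M ∧ k ∉ M)).card =
      ((I.erase i).erase k).powerset.card := by
    symm
    apply Finset.card_bij (fun M _ => insert i M)
    · intro M hM
      simp only [Finset.mem_powerset] at hM
      simp only [Finset.mem_filter, Finset.mem_powerset, Finset.mem_insert_self, true_and,
        Finset.mem_insert, not_or]
      refine ⟨Finset.insert_subset hi (hM.trans ((Finset.erase_subset _ _).trans (Finset.erase_subset _ _))),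
        hk, fun h => ?_⟩
      simpa using hM h
    · intro M hM M' hM' h
      simp only [Finset.mem_powerset] at hM hM'
      have hn : ∀ N : Finset ι, N ⊆ (I.erase i).erase k → i ∉ N := by
        intro N hN h
        simpa using Finset.mem_of_mem_erase (hN h)
      have := congrArg (fun N => Finset.erase N i) h
      simpa [Finset.erase_insert (hn M hM), Finset.erase_insert (hn M' hM')] using this
    · intro M hM
      simp only [Finset.mem_filter, Finset.mem_powerset] at hM
      refine ⟨M.erase i, ?_, Finset.insert_erase hM.2.1⟩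
      simp only [Finset.mem_powerset]
      intro x hx
      have hx' := Finset.mem_of_mem_erase hx
      simp only [Finset.mem_erase]
      refine ⟨fun h => hM.2.2 (h ▸ hx'), Finset.ne_of_mem_erase hx, hM.1 hx'⟩
  rw [h2, Finset.card_powerset, Finset.card_powerset]
  have h3 : I.card ≤ ((I.erase i).erase k).card + 2 := by
    have := Finset.card_erase_of_mem hi
    have h4 := Finset.pred_card_le_card_erase (s := I.erase i) (a := k)
    omega
  calc 2 ^ I.card ≤ 2 ^ (((I.erase i).erase k).card + 2) := Nat.pow_le_pow_right (by norm_num) h3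
    _ = _ := by rw [pow_add]; ring

/-- small cuts for all subsets give a weight function -/
theorem weights {V ι : Type*} [Fintype V] (G : SimpleGraph V) (cls : V → Option ι) (I : Finset ι)
    (A q : ℕ) (X : Finset ι → Finset V) (Y : Finset ι → Finset ι)
    (hXY : ∀ M ⊆ I, A * ((X M).card + q * (Y M).card) < q * I.card ∧
      ∀ i ∈ M, i ∉ Y M → ∀ j, j ∉ M → ∀ w, cls w = some j → w ∉ X M →
        ¬ Wk G (fun i => {v | cls v = some i}) (fun v => if v ∈ X M then 1 else 0) i 0 w) :
    ∃ (W : V → ℕ) (Z : ι → ℕ) (T : ℕ), A * (∑ v, W v + q * ∑ i ∈ I, Z i) < q * I.card * T ∧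
      ∀ i ∈ I, ∀ k, k ≠ i → ∀ w, cls w = some k → ∀ t, Wk G (fun i => {v | cls v = some i}) W i t w →
        T ≤ 4 * (t + W w + Z i) := by
  obtain ⟨W, hW⟩ : ∃ W : V → ℕ, W = fun v => ∑ M ∈ I.powerset, (if v ∈ X M then 1 else 0) := ⟨_, rfl⟩
  obtain ⟨Z, hZ⟩ : ∃ Z : ι → ℕ, Z = fun i => (I.powerset.filter (fun M => i ∈ Y M)).card := ⟨_, rfl⟩
  refine ⟨W, Z, I.powerset.card, ?_, ?_⟩
  · have h4 : ∑ v, W v = ∑ M ∈ I.powerset, (X M).card := by
      rw [hW, Finset.sum_comm]
      apply Finset.sum_congr rfl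
      intro M _
      simp
    have h5 : ∑ i ∈ I, Z i ≤ ∑ M ∈ I.powerset, (Y M).card := by
      rw [hZ]
      simp only [Finset.card_filter]
      rw [Finset.sum_comm]
      apply Finset.sum_le_sum
      intro M _
      rw [← Finset.card_filter]
      apply Finset.card_le_card
      intro i hi
      exact (Finset.mem_filter.1 hi).2
    have h6 : A * (∑ M ∈ I.powerset, (X M).card + q * ∑ M ∈ I.powerset, (Y M).card) <
        q * I.card * I.powerset.card := by
      rw [Finset.mul_sum, ← Finset.sum_add_distrib, Finset.mul_sum, Finset.card_eq_sum_ones I.powerset,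
        Finset.mul_sum]
      apply Finset.sum_lt_sum_of_nonempty
      · exact ⟨∅, Finset.mem_powerset.2 (Finset.empty_subset _)⟩
      · intro M hM
        rw [mul_one]
        exact (hXY M (Finset.mem_powerset.1 hM)).1
    rw [h4]
    refine lt_of_le_of_lt ?_ h6
    gcongr
  · intro i hi k hk w hw t ht
    rw [hW] at ht
    obtain ⟨g, hg, hg'⟩ := Wk.split I.powerset (fun M v => if v ∈ X M then 1 else 0) ht
    have hfam := quarter I i k hi hk
    have h5 : (I.powerset.filter (fun M => i ∈ M ∧ k ∉ M)).card ≤ t + W w + Z i := by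
      have h6 : (I.powerset.filter (fun M => (i ∈ M ∧ k ∉ M) ∧ i ∉ Y M)).card ≤ t + W w := by
        rw [hg, hW, Finset.card_eq_sum_ones]
        simp only
        rw [← Finset.sum_add_distrib]
        calc ∑ M ∈ I.powerset.filter (fun M => (i ∈ M ∧ k ∉ M) ∧ i ∉ Y M), 1
            ≤ ∑ M ∈ I.powerset.filter (fun M => (i ∈ M ∧ k ∉ M) ∧ i ∉ Y M),
              (g M + if w ∈ X M then 1 else 0) := by
              apply Finset.sum_le_sum
              intro M hM
              obtain ⟨hMI, ⟨hiM, hkM⟩, hiY⟩ := Finset.mem_filter.1 hM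
              have h7 := (hXY M (Finset.mem_powerset.1 hMI)).2 i hiM hiY k hkM w hw
              by_cases hwX : w ∈ X M
              · simp [hwX]
              · by_cases hg0 : g M = 0
                · exfalso
                  apply h7 hwX
                  have h77 := hg' M
                  rw [hg0] at h77
                  exact h77
                · omega
          _ ≤ _ := Finset.sum_le_sum_of_subset (Finset.filter_subset _ _)
      have h8 : (I.powerset.filter (fun M => i ∈ M ∧ k ∉ M)) ⊆
          (I.powerset.filter (fun M => (i ∈ M ∧ k ∉ M) ∧ i ∉ Y M)) ∪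
            (I.powerset.filter (fun M => i ∈ Y M)) := by
        intro M hM
        obtain ⟨h9, h10⟩ := Finset.mem_filter.1 hM
        by_cases hiY : i ∈ Y M
        · exact Finset.mem_union_right _ (Finset.mem_filter.2 ⟨h9, hiY⟩)
        · exact Finset.mem_union_left _ (Finset.mem_filter.2 ⟨h9, h10, hiY⟩)
      have h11 := (Finset.card_le_card h8).trans (Finset.card_union_le _ _)
      have h12 : Z i = (I.powerset.filter (fun M => i ∈ Y M)).card := by rw [hZ]
      omega
    omega

/-- CONN3 -/
theorem conn3 (hload : LoadStatement.{u}) : Conn3Statement.{u} := by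
  intro V _ ι _ G hG cls I l q s hl hq hcase
  by_contra hcon
  push Not at hcon
  obtain ⟨m, hm1, hm2⟩ : ∃ m, q * I.card ≤ 16 * m ∧ ∀ x, x < m → 16 * x < q * I.card := by
    have hex : ∃ m, q * I.card ≤ 16 * m := ⟨q * I.card, by omega⟩
    refine ⟨Nat.find hex, Nat.find_spec hex, fun x hx => ?_⟩
    have := Nat.find_min hex hx
    omega
  have hcut : ∀ M, ∃ (X : Finset V) (Y : Finset ι), M ⊆ I → (16 * (X.card + q * Y.card) < q * I.card ∧
      ∀ i ∈ M, i ∉ Y → ∀ j, j ∉ M → ∀ w, cls w = some j → w ∉ X →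
        ¬ Wk G (fun i => {v | cls v = some i}) (fun v => if v ∈ X then 1 else 0) i 0 w) := by
    intro M
    by_cases hM : M ⊆ I
    · rcases cut_or G cls M q m with ⟨Q, src, tgt, h1, h2, h3⟩ | ⟨X, Y, h1, h2⟩
      · exfalso
        obtain ⟨i, hi⟩ := hcon M m Q src tgt hM hm1 h1 h2
        have := h3 i
        omega
      · exact ⟨X, Y, fun _ => ⟨hm2 _ h1, h2⟩⟩
    · exact ⟨∅, ∅, fun h => absurd h hM⟩
  choose X Y hXY using hcut
  obtain ⟨W, Z, T, hsum, hlow⟩ := weights G cls I 16 q X Y hXY
  have hqI : 0 < q * I.card * T := lt_of_le_of_lt (Nat.zero_le _) hsum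
  have hq0 : 0 < q := by
    rcases Nat.eq_zero_or_pos q with h | h
    · rw [h] at hqI; simp at hqI
    · exact h
  have hI0 : 0 < I.card := by
    rcases Nat.eq_zero_or_pos I.card with h | h
    · rw [h] at hqI; simp at hqI
    · exact h
  have hT0 : 0 < T := by
    rcases Nat.eq_zero_or_pos T with h | h
    · rw [h] at hqI; simp at hqI
    · exact h
  have hb0 : 0 < bn G s := by
    rcases Nat.eq_zero_or_pos (bn G s) with h | h
    · obtain ⟨o⟩ := hG.conn.nonempty
      have : Nonempty V := ⟨o⟩
      have : 0 < Fintype.card V := Fintype.card_pos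
      rw [h] at hcase
      omega
    · exact h
  -- light classes
  obtain ⟨I1, hI1⟩ : ∃ I1, I1 = I.filter (fun i => 8 * Z i < T) := ⟨_, rfl⟩
  have hI1c : I.card < 2 * I1.card := by
    have h1 : (I.filter (fun i => ¬ 8 * Z i < T)).card * T ≤ 8 * ∑ i ∈ I, Z i := by
      rw [← smul_eq_mul, ← Finset.sum_const, Finset.mul_sum]
      calc _ ≤ ∑ i ∈ I.filter (fun i => ¬ 8 * Z i < T), 8 * Z i := by
            apply Finset.sum_le_sum
            intro i hi
            have := (Finset.mem_filter.1 hi).2
            omega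
        _ ≤ _ := Finset.sum_le_sum_of_subset (Finset.filter_subset _ _)
    have h2 := Finset.card_filter_add_card_filter_not (s := I) (fun i => 8 * Z i < T)
    have h3 : (q * T) * (2 * (I.filter (fun i => ¬ 8 * Z i < T)).card) < (q * T) * I.card := by
      calc (q * T) * (2 * (I.filter (fun i => ¬ 8 * Z i < T)).card)
          = 2 * q * ((I.filter (fun i => ¬ 8 * Z i < T)).card * T) := by ring
        _ ≤ 2 * q * (8 * ∑ i ∈ I, Z i) := Nat.mul_le_mul_left _ h1
        _ = 16 * (q * ∑ i ∈ I, Z i) := by ring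
        _ ≤ 16 * (∑ v, W v + q * ∑ i ∈ I, Z i) := Nat.mul_le_mul_left _ (Nat.le_add_left _ _)
        _ < q * I.card * T := hsum
        _ = _ := by ring
    have h4 := Nat.lt_of_mul_lt_mul_left h3
    rw [← hI1] at h2
    omega
  -- regions
  obtain ⟨R, hR⟩ : ∃ R : ι → Finset V, R = fun i => Finset.univ.filter (fun v =>
      ∃ t, Wk G (fun i => {v | cls v = some i}) W i t v ∧ 16 * (t + W v) < T) := ⟨_, rfl⟩
  have hmemR : ∀ i v, v ∈ R i ↔ ∃ t, Wk G (fun i => {v | cls v = some i}) W i t v ∧ 16 * (t + W v) < T := by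
    intro i v
    rw [hR]
    simp
  have hlow1 : ∀ i ∈ I1, ∀ k, k ≠ i → ∀ w, cls w = some k → ∀ t,
      Wk G (fun i => {v | cls v = some i}) W i t w → T < 8 * (t + W w) := by
    intro i hi k hk w hw t ht
    rw [hI1] at hi
    obtain ⟨h1, h2⟩ := Finset.mem_filter.1 hi
    have := hlow i h1 k hk w hw t ht
    omega
  have hdisj : ∀ i ∈ I1, ∀ j ∈ I1, i ≠ j → Disjoint (R i) (R j) := by
    intro i hi j hj hij
    rw [Finset.disjoint_left]
    intro v hv hv'
    obtain ⟨t, ht, ht'⟩ := (hmemR i v).1 hv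
    obtain ⟨t1, ht1, ht1'⟩ := (hmemR j v).1 hv'
    obtain ⟨k, hk, w, hw, s', hs', hle⟩ := Wk.combine hij ht1 ht
    have := hlow1 i hi k hk w hw s' hs'
    omega
  have hRsum : ∀ J ⊆ I1, ∑ i ∈ J, (R i).card ≤ Fintype.card V := by
    intro J hJ
    rw [← Finset.card_biUnion]
    · exact Finset.card_le_univ _
    · intro i hi j hj hij
      exact hdisj i (hJ hi) j (hJ hj) hij
  obtain ⟨I2, hI2⟩ : ∃ I2, I2 = I1.filter (fun i => 2 * (R i).card ≤ bn G s) := ⟨_, rfl⟩
  have hI12 := Finset.card_filter_add_card_filter_not (s := I1) (fun i => 2 * (R i).card ≤ bn G s)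
  rw [← hI2] at hI12
  have hI2c : I.card ≤ 4 * I2.card := by
    have h1 := hRsum (I1.filter (fun i => ¬ 2 * (R i).card ≤ bn G s)) (Finset.filter_subset _ _)
    have h2 : (I1.filter (fun i => ¬ 2 * (R i).card ≤ bn G s)).card * (bn G s + 1) ≤
        2 * ∑ i ∈ I1.filter (fun i => ¬ 2 * (R i).card ≤ bn G s), (R i).card := by
      rw [← smul_eq_mul, ← Finset.sum_const, Finset.mul_sum]
      apply Finset.sum_le_sum
      intro i hi
      have := (Finset.mem_filter.1 hi).2
      omega
    rcases hcase with h8 | ⟨hn, h2I⟩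
    · have h3 : bn G s * (4 * (I1.filter (fun i => ¬ 2 * (R i).card ≤ bn G s)).card) ≤ bn G s * I.card := by
        calc bn G s * (4 * (I1.filter (fun i => ¬ 2 * (R i).card ≤ bn G s)).card)
            = 4 * ((I1.filter (fun i => ¬ 2 * (R i).card ≤ bn G s)).card * bn G s) := by ring
          _ ≤ 4 * ((I1.filter (fun i => ¬ 2 * (R i).card ≤ bn G s)).card * (bn G s + 1)) := by gcongr; omega
          _ ≤ 4 * (2 * Fintype.card V) := Nat.mul_le_mul_left _ (h2.trans (Nat.mul_le_mul_left _ h1))
          _ = 8 * Fintype.card V := by ring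
          _ ≤ _ := h8
      have h4 := Nat.le_of_mul_le_mul_left h3 hb0
      omega
    · have h3 : (I1.filter (fun i => ¬ 2 * (R i).card ≤ bn G s)).card ≤ 1 := by
        by_contra hgt
        replace hgt := Nat.lt_of_not_le hgt
        have h4 : 2 * (bn G s + 1) ≤ 2 * Fintype.card V :=
          (Nat.mul_le_mul_right _ hgt).trans (h2.trans (Nat.mul_le_mul_left _ h1))
        omega
      omega
  -- the load
  obtain ⟨C, hC⟩ : ∃ C : Finset V, C = I2.biUnion (fun i => Finset.univ.filter (fun v => cls v = some i)) := ⟨_, rfl⟩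
  have hCc : l * I2.card ≤ C.card := by
    rw [hC, Finset.card_biUnion, Nat.mul_comm, ← smul_eq_mul, ← Finset.sum_const]
    · apply Finset.sum_le_sum
      intro i hi
      apply hl i
      rw [hI2, hI1] at hi
      exact (Finset.mem_filter.1 (Finset.mem_filter.1 hi).1).1
    · intro i _ j _ hij
      rw [Function.onFun, Finset.disjoint_left]
      intro v hv hv'
      have h1 := (Finset.mem_filter.1 hv).2
      have h2 := (Finset.mem_filter.1 hv').2
      rw [h1] at h2
      exact hij (Option.some.inj h2)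
  have hmemC : ∀ x ∈ C, ∃ i ∈ I2, cls x = some i := by
    intro x hx
    rw [hC] at hx
    obtain ⟨i, hi, hx⟩ := Finset.mem_biUnion.1 hx
    exact ⟨i, hi, (Finset.mem_filter.1 hx).2⟩
  obtain ⟨Rx, hRx⟩ : ∃ Rx : V → Finset V, ∀ x i, cls x = some i → Rx x = R i :=
    ⟨fun x => match cls x with
      | some i => R i
      | none => ∅, fun x i h => by simp only [h]⟩
  have hL := hload V G hG (fun v => 16 * W v) C Rx s T (by
    intro x hx
    obtain ⟨i, hi, hxi⟩ := hmemC x hx
    rw [hRx x i hxi]
    rw [hI2] at hi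
    exact (Finset.mem_filter.1 hi).2) (by
    intro x hx P hP hPx hPu
    obtain ⟨u, hPu, hu⟩ := hPu
    obtain ⟨i, hi, hxi⟩ := hmemC x hx
    have hi1 : i ∈ I1 := by
      rw [hI2] at hi
      exact (Finset.mem_filter.1 hi).1
    rw [hRx x i hxi, hmemR] at hu
    push Not at hu
    have h16 : (P.map (fun v => 16 * W v)).sum = 16 * (P.map W).sum := List.sum_map_mul_left P W 16
    rw [h16]
    obtain ⟨P', rfl⟩ : ∃ P', P = x :: P' := by
      cases P with
      | nil => simp at hPx
      | cons a P' => simp at hPx; exact ⟨P', by rw [hPx]⟩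
    rcases follow P' x 0 (Wk.base (C := fun i => {v | cls v = some i}) (i := i) hxi) hP.2.1 hPu with
      ⟨k, hk, w, hw, t, ht, hle⟩ | ⟨t, ht, hle⟩
    · have := hlow1 i hi1 k hk w hw t ht
      omega
    · have := hu t ht
      omega)
  have hfin : 16 * (l * (I.card * T)) < 128 * (s + 1) * (q * I.card * T) := by
    calc 16 * (l * (I.card * T)) ≤ 16 * (l * (4 * I2.card * T)) := by gcongr
      _ = 64 * (T * (l * I2.card)) := by ring
      _ ≤ 64 * (T * C.card) := by gcongr
      _ ≤ 64 * (2 * (s + 1) * ∑ v, 16 * W v) := by gcongr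
      _ = 128 * (s + 1) * (16 * ∑ v, W v) := by rw [← Finset.mul_sum]; ring
      _ < 128 * (s + 1) * (q * I.card * T) := by
        apply Nat.mul_lt_mul_of_pos_left _ (by positivity)
        refine lt_of_le_of_lt ?_ hsum
        exact Nat.mul_le_mul_left _ (Nat.le_add_right _ _)
  have h9 : (I.card * T) * (16 * l) < (I.card * T) * (128 * (s + 1) * q) := by
    calc (I.card * T) * (16 * l) = 16 * (l * (I.card * T)) := by ring
      _ < _ := hfin
      _ = _ := by ring
  have h10 := Nat.lt_of_mul_lt_mul_left h9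
  have h11 : 128 * (s + 1) * q = 4 * (32 * (s + 1) * q) := by ring
  omega

end Pool.Agent.Lib.MP_688fd0_co.LIN.N43
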