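import Pool.Agent.Lib.MP_688fd0_co.LIN.Iface

/-!
Degree-free recursion for vertex-transitive graphs: module statements (helper43, project ASY).
-/

set_option autoImplicit false

namespace Pool.Agent.Lib.MP_688fd0_co.LIN

open Classical
open Pool.Agent.Lib.MP_688fd0_co.LP (IsP Conn Cyc Symm cay)

universe u

/-- LOAD: weights that every path leaving a small region has to pay are large in total. -/
def LoadStatement : Prop := ∀ (V : Type u) [Fintype V] (G : SimpleGraph V), VT G →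
  ∀ (y : V → ℕ) (C : Finset V) (R : V → Finset V) (s θ : ℕ), (∀ x ∈ C, 2 * (R x).card ≤ bn G s) →
  (∀ x ∈ C, ∀ P, IsP G P → P.head? = some x → (∃ u, P.getLast? = some u ∧ u ∉ R x) → θ ≤ (P.map y).sum) →
  θ * C.card ≤ 2 * (s + 1) * ∑ v, y v

/-- CONN3: many disjoint connections in vertex-transitive graphs, no loss in the degree. -/
def Conn3Statement : Prop := ∀ (V : Type u) [Fintype V] (ι : Type u) [Fintype ι] (G : SimpleGraph V), VT G →
  ∀ (cls : V → Option ι) (I : Finset ι) (l q s : ℕ),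
  (∀ i ∈ I, l ≤ (Finset.univ.filter (fun v => cls v = some i)).card) → 32 * (s + 1) * q ≤ l →
  (8 * Fintype.card V ≤ bn G s * I.card ∨ (bn G s = Fintype.card V ∧ 2 ≤ I.card)) →
  ∃ (M : Finset ι) (m : ℕ) (Q : Fin m → List V) (src tgt : Fin m → ι), M ⊆ I ∧ q * I.card ≤ 16 * m ∧
    (∀ t, src t ∈ M ∧ tgt t ∉ M ∧ IsConn G cls (src t) (Q t) ∧
      ∃ b, (Q t).getLast? = some b ∧ cls b = some (tgt t)) ∧
    (∀ s t, s ≠ t → List.Disjoint (Q s) (Q t)) ∧
    ∀ i, (Finset.univ.filter (fun t => src t = i)).card ≤ q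

/-- START3: an optimal family covers a part of the graph that depends on the scale `s` only. -/
def Start3Statement : Prop := ∀ (V : Type u) [Fintype V] (G H : SimpleGraph V), VT G → ∀ l s m : ℕ,
  Opt G l H → 2 * m ≤ bn G s → 2 * (l + 1) * (2 * s + 3) ≤ m → Fintype.card V ≤ (4 * s + 5) * (cov H).card

/-- STEP3 -/
def Step3Statement : Prop := ∀ (V : Type u) [Fintype V] (G H : SimpleGraph V), VT G → ∀ l K s : ℕ,
  Opt G l H → 1 ≤ K → 2 ^ 60 * K ^ 3 * (s + 1) ≤ l → 2 ≤ ncyc H →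
  (16 * Fintype.card V ≤ bn G s * ncyc H ∨ bn G s = Fintype.card V) → K * l * ncyc H < (cov H).card

/-- NEXT3 -/
def Next3Statement : Prop := ∀ (V : Type u) [Fintype V] (G : SimpleGraph V), VT G → ∀ l K s : ℕ,
  2 ≤ K → 2 ^ 60 * K ^ 3 * (s + 1) ≤ l → ∀ x : ℝ, 0 < x →
  (16 * (K : ℝ) * l ≤ x * bn G s ∨ bn G s = Fintype.card V) → Rat G l x →
    ((∃ c, Cyc G c ∧ x * (Fintype.card V : ℝ) ≤ c.length) ∨ Rat G (2 * l) (x * (1 - 1 / (K - 1)))) ∧
    ((K : ℝ) * l ≤ x * (Fintype.card V : ℝ) → Rat G (2 * l) (x * (1 - 1 / (K - 1))))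

end Pool.Agent.Lib.MP_688fd0_co.LIN
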